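import Mathlib
import Pool.Agent.VM.Main

/-!
# Montgomery's conjecture on Weyl sums: the exponent `2 (k - 1) / (k ^ 2 (k + 1))`

For every `k ≥ 4`, all real `t`, `ξ` and all coprime `a`, `q` with `|t - a / q| ≤ 1 / q ^ 2`,
`|∑_{n ≤ N} e(t n ^ k + ξ n)| ≤ C N ^ (1 + ε) ((1 / q + q / N ^ k) ^ (1 / k) + N ^ (-σ))` with
`σ = 2 (k - 1) / (k ^ 2 (k + 1))`.  This is Montgomery's bound with the additional term `N ^ (-σ)`.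
-/

set_option autoImplicit false

namespace Pool.Agent.Results.MP_3b0be2_nt.FullFormAllDegrees

theorem result (k : ℕ) (hk : 4 ≤ k) (ε : ℝ) (hε : 0 < ε) :
    ∃ C : ℝ, 0 < C ∧ ∀ (N q : ℕ) (a : ℤ) (t ξ : ℝ), 1 ≤ N → 1 ≤ q → IsCoprime a (q : ℤ) →
      |t - (a : ℝ) / (q : ℝ)| ≤ 1 / (q : ℝ) ^ 2 →
      ‖∑ n ∈ Finset.Icc 1 N, Complex.exp (2 * (Real.pi : ℂ) * Complex.I *
          ((t : ℂ) * (n : ℂ) ^ k + (ξ : ℂ) * (n : ℂ)))‖ ≤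
        C * (N : ℝ) ^ (1 + ε) * ((1 / (q : ℝ) + (q : ℝ) / (N : ℝ) ^ k) ^ (1 / (k : ℝ)) +
          (1 / (N : ℝ)) ^ (2 * ((k : ℝ) - 1) / ((k : ℝ) ^ 2 * ((k : ℝ) + 1)))) := by
  obtain ⟨C, hC, h⟩ := Pool.Agent.VM.main₁ k hk ε hε
  refine ⟨C, hC, ?_⟩
  intro N q a t ξ hN hq hco ht
  have h1 := h N q a t ξ hN hq (Int.isCoprime_iff_gcd_eq_one.1 hco) ht
  have h2 : ∑ n ∈ Finset.Icc 1 N, Complex.exp (2 * (Real.pi : ℂ) * Complex.I *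
      ((t : ℂ) * (n : ℂ) ^ k + (ξ : ℂ) * (n : ℂ))) = Pool.Agent.Helper69_Weyl.W k N t ξ := by
    unfold Pool.Agent.Helper69_Weyl.W Pool.Agent.Helper69_Weyl.ee
    refine Finset.sum_congr rfl fun n _ => ?_
    push_cast
    ring_nf
  rw [h2]
  exact h1

end Pool.Agent.Results.MP_3b0be2_nt.FullFormAllDegrees
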