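import Mathlib
import Pool.Agent.Helper49_GP.Core

/-!
# Weyl sums of arbitrary real polynomials with the exponent `(2 k - 1) / (k (k + 1) ^ 2)`

For every `k ≥ 3`, all `N ≥ 1`, all coprime `a`, `q` with `1 ≤ q ≤ N ^ (k - 1)` and EVERY real
polynomial `f` of degree at most `k` whose coefficient `t` of `X ^ k` satisfies
`|t - a / q| ≤ 1 / q ^ 2`: `|∑_{n ≤ N} e(f(n))| ≤ C N ^ (1 + ε) (1 / q + 1 / N) ^ s` with
`s = (2 k - 1) / (k (k + 1) ^ 2)`; `C` depends on `k` and `ε` only.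
-/

set_option autoImplicit false

namespace Pool.Agent.Results.MP_3b0be2_nt.GeneralPolynomials

theorem result (k : ℕ) (hk : 3 ≤ k) (ε : ℝ) (hε : 0 < ε) :
    ∃ C : ℝ, 0 < C ∧ ∀ (N q : ℕ) (a : ℤ) (f : Polynomial ℝ), 1 ≤ N → 1 ≤ q → q ≤ N ^ (k - 1) →
      IsCoprime a (q : ℤ) → f.natDegree ≤ k → |f.coeff k - (a : ℝ) / (q : ℝ)| ≤ 1 / (q : ℝ) ^ 2 →
      ‖∑ n ∈ Finset.Icc 1 N, Complex.exp (2 * (Real.pi : ℂ) * Complex.I *
          ((f.eval (n : ℝ) : ℝ) : ℂ))‖ ≤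
        C * (N : ℝ) ^ (1 + ε) * (1 / (q : ℝ) + 1 / (N : ℝ)) ^
          ((2 * (k : ℝ) - 1) / ((k : ℝ) * ((k : ℝ) + 1) ^ 2)) := by
  obtain ⟨C, hC, h⟩ := Pool.Agent.VM.H49GP.main k hk ε hε
  refine ⟨C, hC, ?_⟩
  intro N q a f hN hq hqk hco hdeg ht
  have h1 := h N q a f hN hq hqk (Int.isCoprime_iff_gcd_eq_one.1 hco) hdeg ht
  have h2 : ∑ n ∈ Finset.Icc 1 N, Complex.exp (2 * (Real.pi : ℂ) * Complex.I *
      ((f.eval (n : ℝ) : ℝ) : ℂ)) =
      ∑ n ∈ Finset.Icc (1 : ℤ) (N : ℤ), Pool.Agent.Helper69_Weyl.ee (f.eval (n : ℝ)) := by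
    symm
    refine Finset.sum_bij' (fun n _ => n.toNat) (fun n _ => (n : ℤ)) ?_ ?_ ?_ ?_ ?_
    · intro n hn
      rw [Finset.mem_Icc] at hn ⊢
      omega
    · intro n hn
      rw [Finset.mem_Icc] at hn ⊢
      omega
    · intro n hn
      rw [Finset.mem_Icc] at hn
      exact Int.toNat_of_nonneg (by omega)
    · intro n _
      exact Int.toNat_natCast n
    · intro n hn
      rw [Finset.mem_Icc] at hn
      have h3 : ((n.toNat : ℕ) : ℤ) = n := Int.toNat_of_nonneg (by omega)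
      have h4 : ((n.toNat : ℕ) : ℝ) = (n : ℝ) := by exact_mod_cast h3
      simp only [Pool.Agent.Helper69_Weyl.ee, h4]
  rw [h2]
  exact h1

end Pool.Agent.Results.MP_3b0be2_nt.GeneralPolynomials
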