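import Mathlib
import Pool.Agent.Helper98_VM5.FinW

/-!
# Weyl's inequality for quintic sums with the exponent `63 / 1000` instead of `1 / 16`

For all real `t`, `ξ`, all `N`, `q ≥ 1` and all `a` coprime to `q` with `|t - a / q| ≤ 1 / q ^ 2`,
`|∑_{n ≤ N} e(t n ^ 5 + ξ n)| ≤ C N ^ (1 + ε) ((1 / q + q / N ^ 5) ^ (1 / 5) + N ^ (-63 / 1000))`.
-/

set_option autoImplicit false

namespace Pool.Agent.Results.MP_3b0be2_nt.QuinticWeyl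

theorem result (ε : ℝ) (hε : 0 < ε) :
    ∃ C : ℝ, 0 < C ∧ ∀ (N q : ℕ) (a : ℤ) (t ξ : ℝ), 1 ≤ N → 1 ≤ q → IsCoprime a (q : ℤ) →
      |t - (a : ℝ) / (q : ℝ)| ≤ 1 / (q : ℝ) ^ 2 →
      ‖∑ n ∈ Finset.Icc 1 N, Complex.exp (2 * (Real.pi : ℂ) * Complex.I *
          ((t : ℂ) * (n : ℂ) ^ 5 + (ξ : ℂ) * (n : ℂ)))‖ ≤
        C * (N : ℝ) ^ (1 + ε) * ((1 / (q : ℝ) + (q : ℝ) / (N : ℝ) ^ 5) ^ ((1 : ℝ) / 5) +
          (1 / (N : ℝ)) ^ ((63 : ℝ) / 1000)) := by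
  obtain ⟨C, hC, h⟩ := Pool.Agent.VM5.full5 ε hε
  refine ⟨C, hC, ?_⟩
  intro N q a t ξ hN hq hco ht
  have h1 := h N q a t ξ hN hq (Int.isCoprime_iff_gcd_eq_one.1 hco) ht
  have h2 : ∑ n ∈ Finset.Icc 1 N, Complex.exp (2 * (Real.pi : ℂ) * Complex.I *
      ((t : ℂ) * (n : ℂ) ^ 5 + (ξ : ℂ) * (n : ℂ))) = Pool.Agent.Helper69_Weyl.W 5 N t ξ := by
    unfold Pool.Agent.Helper69_Weyl.W Pool.Agent.Helper69_Weyl.ee
    refine Finset.sum_congr rfl fun n _ => ?_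
    push_cast
    ring_nf
  rw [h2]
  refine h1.trans (le_of_eq ?_)
  norm_num

end Pool.Agent.Results.MP_3b0be2_nt.QuinticWeyl
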